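import Pool.Agent.RS.StmtsT

set_option autoImplicit false

/-!
# Squad RS, rows EXO and EXT: ideals stable under derivations
-/

namespace Pool.Agent.RS.H13

open MvPolynomial Pool.Agent.RS
open scoped Classical

/-- the coefficients of a polynomial in an ideal stable under the derivative -/
theorem exo_aux {k Y : Type} [Field k] [CharZero k] (y : Y) (I : Ideal (MvPolynomial Y k))
    (hI : ∀ f ∈ I, pderiv y f ∈ I) : ∀ (n : ℕ) (c : ℕ → MvPolynomial Y k),
    (∀ i, pderiv y (c i) = 0) → ∑ i ∈ Finset.range n, c i * X y ^ i ∈ I → ∀ i < n, c i ∈ I := by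
  intro n
  induction n with
  | zero =>
    intro c _ _ i hi
    omega
  | succ n ih =>
    intro c hc hs
    have h1 := hI _ hs
    rw [Finset.sum_range_succ', map_add, map_sum, pow_zero, mul_one, hc 0, add_zero] at h1
    have h2 : ∀ i, pderiv y (c (i + 1) * X y ^ (i + 1)) =
        (((i + 1 : ℕ) : MvPolynomial Y k) * c (i + 1)) * X y ^ i := by
      intro i
      rw [Derivation.leibniz, hc, smul_zero, add_zero, pderiv_pow, pderiv_X_self]
      simp only [smul_eq_mul, Nat.add_sub_cancel, mul_one]
      ring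
    simp only [h2] at h1
    have h3 := ih (fun i => ((i + 1 : ℕ) : MvPolynomial Y k) * c (i + 1)) (fun i => by
      rw [Derivation.leibniz, hc, smul_zero, zero_add]
      have h4 : pderiv y (((i + 1 : ℕ) : MvPolynomial Y k)) = 0 := by
        rw [← map_natCast (C : k →+* MvPolynomial Y k), pderiv_C]
      rw [h4, smul_zero]) h1
    have h4 : ∀ i < n, c (i + 1) ∈ I := by
      intro i hi
      have h5 := I.mul_mem_left (C (((i + 1 : ℕ) : k)⁻¹)) (h3 i hi)
      have h6 : (C (((i + 1 : ℕ) : k)⁻¹) : MvPolynomial Y k) *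
          (((i + 1 : ℕ) : MvPolynomial Y k) * c (i + 1)) = c (i + 1) := by
        rw [← map_natCast (C : k →+* MvPolynomial Y k) (i + 1), ← mul_assoc, ← map_mul,
          inv_mul_cancel₀ (Nat.cast_ne_zero.2 (Nat.succ_ne_zero i)), map_one, one_mul]
      rw [h6] at h5
      exact h5
    intro i hi
    rcases Nat.eq_zero_or_pos i with rfl | hpos
    · rw [Finset.sum_range_succ', pow_zero, mul_one] at hs
      have h5 : ∑ i ∈ Finset.range n, c (i + 1) * X y ^ (i + 1) ∈ I :=
        Submodule.sum_mem _ fun i hi => I.mul_mem_right _ (h4 i (Finset.mem_range.1 hi))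
      have h6 := I.sub_mem hs h5
      rwa [add_sub_cancel_left] at h6
    · obtain ⟨j, rfl⟩ : ∃ j, i = j + 1 := ⟨i - 1, by omega⟩
      exact h4 j (by omega)

theorem exo : ExoStmt := by
  intro k Y _ _ y I hI f hf
  obtain ⟨n, hn⟩ : ∃ n : ℕ, ∀ m ∈ f.support, m y ∈ Finset.range n := by
    refine ⟨f.support.sup (fun m => m y) + 1, fun m hm => ?_⟩
    rw [Finset.mem_range]
    have := Finset.le_sup (f := fun m : Y →₀ ℕ => m y) hm
    exact Nat.lt_succ_of_le this
  obtain ⟨c, hc⟩ : ∃ c : ℕ → MvPolynomial Y k, c = fun i =>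
      ∑ m ∈ f.support with m y = i, monomial (m.erase y) (coeff m f) := ⟨_, rfl⟩
  have hvars : ∀ i x, x ∈ (c i).vars → x ∈ f.vars ∧ x ≠ y := by
    intro i x hx
    rw [hc] at hx
    have h1 := vars_sum_subset _ _ hx
    rw [Finset.mem_biUnion] at h1
    obtain ⟨m, hm, hxm⟩ := h1
    rw [Finset.mem_filter] at hm
    rw [vars_monomial (mem_support_iff.1 hm.1), Finsupp.support_erase, Finset.mem_erase] at hxm
    exact ⟨(mem_vars_iff_mem_support x).2 ⟨m, hm.1, hxm.2⟩, hxm.1⟩
  have hy : ∀ i, y ∉ (c i).vars := fun i h => (hvars i y h).2 rfl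
  have hsum : f = ∑ i ∈ Finset.range n, c i * X y ^ i := by
    have h1 : ∀ i, c i * X y ^ i = ∑ m ∈ f.support with m y = i, monomial m (coeff m f) := by
      intro i
      rw [hc]
      simp only
      rw [Finset.sum_mul]
      refine Finset.sum_congr rfl fun m hm => ?_
      rw [Finset.mem_filter] at hm
      rw [← hm.2, X_pow_eq_monomial, monomial_mul, mul_one, Finsupp.erase_add_single]
    simp only [h1]
    rw [Finset.sum_fiberwise_of_maps_to hn]
    exact f.as_sum
  have hmem := exo_aux y I hI n c (fun i => pderiv_eq_zero_of_notMem_vars (hy i))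
    (by rw [← hsum]; exact hf)
  exact ⟨n, c, fun i hi => ⟨hmem i hi, hy i, fun x hx => (hvars i x hx).1⟩, hsum⟩

theorem ext (hE : ExoStmt) : ExtStmt := by
  intro k Y _ _ s I hI
  have key : ∀ (N : ℕ) (f : MvPolynomial Y k), (f.vars.filter (fun y => y ∉ s)).card = N →
      f ∈ I → f ∈ Ideal.span {g | g ∈ I ∧ g ∈ supported k s} := by
    intro N
    induction N using Nat.strong_induction_on with
    | _ N ih =>
      intro f hN hf
      by_cases h : (f.vars.filter (fun y => y ∉ s)) = ∅
      · refine Ideal.subset_span ⟨hf, ?_⟩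
        rw [mem_supported]
        intro x hx
        by_contra hxs
        have h1 : x ∈ f.vars.filter (fun y => y ∉ s) := Finset.mem_filter.2 ⟨hx, hxs⟩
        rw [h] at h1
        exact absurd h1 (Finset.notMem_empty x)
      · obtain ⟨y, hy⟩ := Finset.nonempty_iff_ne_empty.2 h
        have hy' := Finset.mem_filter.1 hy
        obtain ⟨n, c, hc, hsum⟩ := hE k Y y I (hI y hy'.2) f hf
        rw [hsum]
        refine Submodule.sum_mem _ fun i hi => Ideal.mul_mem_right _ _ ?_
        obtain ⟨h1, h2, h3⟩ := hc i (Finset.mem_range.1 hi)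
        refine ih _ ?_ (c i) rfl h1
        rw [← hN]
        apply Finset.card_lt_card
        rw [Finset.ssubset_iff_of_subset]
        · refine ⟨y, hy, fun h4 => h2 (Finset.mem_filter.1 h4).1⟩
        · intro x hx
          rw [Finset.mem_filter] at hx ⊢
          exact ⟨h3 hx.1, hx.2⟩
  intro f hf
  exact key _ f rfl hf

end Pool.Agent.RS.H13
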