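import Pool.Agent.RS.StmtsG

set_option autoImplicit false

/-!
# Squad RS, row GNO: the generator, one polynomial in the first `n` variables
-/

namespace Pool.Agent.RS.H13

open MvPolynomial Pool.Agent.RS
open scoped Classical

section

variable {E : Type} [Field E]

theorem totalDegree_pderiv_lt (P : MvPolynomial ℕ E) (i : ℕ)
    (h : P.totalDegree ≠ 0) : (pderiv i P).totalDegree < P.totalDegree := by
  rw [totalDegree, Finset.sup_lt_iff (Nat.pos_of_ne_zero h)]
  intro m hm
  rw [mem_support_iff, coeff_pderiv] at hm
  have h1 : coeff (m + Finsupp.single i 1) P ≠ 0 := left_ne_zero_of_mul hm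
  have h2 := le_totalDegree (mem_support_iff.2 h1)
  rw [Finsupp.sum_add_index' (fun _ => rfl) (fun _ _ _ => rfl), Finsupp.sum_single_index rfl] at h2
  change (m.sum fun _ e => e) < _
  omega

theorem exists_pderiv_ne [CharZero E] (P : MvPolynomial ℕ E) (h : P.totalDegree ≠ 0) :
    ∃ i, pderiv i P ≠ 0 := by
  by_contra hcon
  push Not at hcon
  apply h
  rw [totalDegree_eq_zero_iff_eq_C]
  ext m
  rw [coeff_C]
  split_ifs with h0
  · rw [h0]
  · obtain ⟨i, hi⟩ : ∃ i, m i ≠ 0 := by
      by_contra hc
      push Not at hc
      exact h0 (Finsupp.ext fun i => by simp [hc i]).symm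
    have h1 := congrArg (coeff (m - Finsupp.single i 1)) (hcon i)
    have h2 : m - Finsupp.single i 1 + Finsupp.single i 1 = m := by
      apply tsub_add_cancel_of_le
      rw [Finsupp.single_le_iff]
      omega
    rw [coeff_pderiv, coeff_zero, h2] at h1
    refine (mul_eq_zero.1 h1).resolve_right ?_
    exact Nat.cast_add_one_ne_zero _

theorem vars_pderiv_subset (P : MvPolynomial ℕ E) (i : ℕ) : (pderiv i P).vars ⊆ P.vars := by
  intro x hx
  rw [mem_vars_iff_mem_support] at hx ⊢
  obtain ⟨d, hd, hxd⟩ := hx
  rw [mem_support_iff, coeff_pderiv] at hd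
  refine ⟨d + Finsupp.single i 1, mem_support_iff.2 (left_ne_zero_of_mul hd), ?_⟩
  rw [Finsupp.mem_support_iff] at hxd ⊢
  rw [Finsupp.add_apply]
  omega

/-- the restriction of a polynomial to a line parallel to an axis -/
noncomputable def ln (i : ℕ) (p : ℕ → E) : MvPolynomial ℕ E →ₐ[E] Polynomial E :=
  aeval fun i' => if i' = i then Polynomial.X else Polynomial.C (p i')

theorem eval_ln (i : ℕ) (p : ℕ → E) (h : MvPolynomial ℕ E) (t : E) :
    (ln i p h).eval t = eval (Function.update p i t) h := by
  have h1 : ((Polynomial.evalRingHom t).comp (ln i p : MvPolynomial ℕ E →ₐ[E]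
      Polynomial E).toRingHom) = eval (Function.update p i t) := by
    apply MvPolynomial.ringHom_ext
    · intro a
      simp [ln]
    · intro i'
      by_cases hi : i' = i
      · subst hi
        simp [ln]
      · simp [ln, hi]
  exact congrArg (fun g : MvPolynomial ℕ E →+* E => g h) h1

theorem derivative_ln (i : ℕ) (p : ℕ → E) (h : MvPolynomial ℕ E) :
    Polynomial.derivative (ln i p h) = ln i p (pderiv i h) := by
  induction h using MvPolynomial.induction_on with
  | C a =>
    rw [pderiv_C, map_zero]
    have : ln i p (C a) = Polynomial.C a := by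
      simp [ln]
    rw [this, Polynomial.derivative_C]
  | add f g hf hg =>
    rw [map_add, map_add, hf, hg, map_add, map_add]
  | mul_X f j hf =>
    rw [map_mul, Polynomial.derivative_mul, hf, Derivation.leibniz, map_add, smul_eq_mul,
      smul_eq_mul, map_mul, map_mul, pderiv_X]
    have h1 : Polynomial.derivative (ln i p (X j)) =
        ln i p (Pi.single (M := fun _ => MvPolynomial ℕ E) i 1 j) := by
      by_cases hj : j = i
      · subst hj
        simp [ln]
      · rw [Pi.single_eq_of_ne hj, map_zero]
        simp [ln, hj]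
    rw [h1]
    ring

end

theorem gno : GnoStmt := by
  intro E _ _ n m
  have hconst : ∀ (h : MvPolynomial ℕ E) (m : ℕ), h ≠ 0 → h.totalDegree = 0 →
      ∃ w z : Fin m → E, eval (Pool.Agent.UO.point n w z) h ≠ 0 := by
    intro h m h0 hd
    refine ⟨0, 0, ?_⟩
    rw [totalDegree_eq_zero_iff_eq_C] at hd
    rw [hd, eval_C]
    intro hc
    apply h0
    rw [hd, hc, map_zero]
  induction m with
  | zero =>
    intro h h0 hd _
    exact hconst h 0 h0 (by omega)
  | succ m ih =>
    intro h h0 hd hv
    by_cases hd0 : h.totalDegree = 0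
    · exact hconst h (m + 1) h0 hd0
    obtain ⟨i, hi⟩ := exists_pderiv_ne h hd0
    have hin : i < n := by
      have h1 : i ∈ h.vars := by
        by_contra hc
        exact hi (pderiv_eq_zero_of_notMem_vars hc)
      exact Finset.mem_range.1 (hv h1)
    have hlt := totalDegree_pderiv_lt h i hd0
    obtain ⟨w, z, hwz⟩ := ih (pderiv i h) hi (by omega) ((vars_pderiv_subset h i).trans hv)
    obtain ⟨p, hp⟩ : ∃ p : ℕ → E, p = Pool.Agent.UO.point n w z := ⟨_, rfl⟩
    rw [← hp] at hwz
    have hG : ln i p h ≠ 0 := by
      intro hc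
      have h1 := derivative_ln i p h
      rw [hc, Polynomial.derivative_zero] at h1
      have h2 := eval_ln i p (pderiv i h) (p i)
      rw [← h1, Polynomial.eval_zero, Function.update_eq_self] at h2
      exact hwz h2.symm
    obtain ⟨t, ht⟩ : ∃ t, (ln i p h).eval t ≠ 0 := by
      by_contra hc
      push Not at hc
      apply hG
      apply Polynomial.funext
      intro r
      rw [hc r, Polynomial.eval_zero]
    rw [eval_ln] at ht
    obtain ⟨v, hv'⟩ : ∃ v : E, v = ∏ l ∈ (Finset.range n).erase i, ((i : E) - (l : E)) := ⟨_, rfl⟩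
    have hv0 : v ≠ 0 := by
      rw [hv', Finset.prod_ne_zero_iff]
      intro l hl
      rw [sub_ne_zero]
      intro hc
      exact (Finset.mem_erase.1 hl).1 (Nat.cast_injective hc).symm
    refine ⟨Fin.snoc w (i : E), Fin.snoc z ((t - p i) / v), ?_⟩
    have hpt : Pool.Agent.UO.point n (Fin.snoc w (i : E) : Fin (m + 1) → E)
        (Fin.snoc z ((t - p i) / v) : Fin (m + 1) → E) = Function.update p i t := by
      funext i'
      by_cases hi' : i' < n
      · have e1 : Pool.Agent.UO.point n (Fin.snoc w (i : E) : Fin (m + 1) → E)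
            (Fin.snoc z ((t - p i) / v) : Fin (m + 1) → E) i' = p i' + (t - p i) / v *
              ∏ l ∈ (Finset.range n).erase i', ((i : E) - (l : E)) := by
          rw [hp]
          unfold Pool.Agent.UO.point
          rw [if_pos hi', if_pos hi', Fin.sum_univ_castSucc]
          simp only [Fin.snoc_castSucc, Fin.snoc_last]
        rw [e1]
        by_cases hii : i' = i
        · subst hii
          rw [Function.update_self, ← hv', div_mul_cancel₀ _ hv0]
          ring
        · rw [Function.update_of_ne hii]
          have h1 : ∏ l ∈ (Finset.range n).erase i', ((i : E) - (l : E)) = 0 :=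
            Finset.prod_eq_zero (Finset.mem_erase.2 ⟨fun hc => hii hc.symm,
              Finset.mem_range.2 hin⟩) (sub_self _)
          rw [h1, mul_zero, add_zero]
      · have hii : i' ≠ i := by
          rintro rfl
          exact hi' hin
        rw [Function.update_of_ne hii, hp]
        unfold Pool.Agent.UO.point
        rw [if_neg hi', if_neg hi']
    rw [hpt]
    exact ht

end Pool.Agent.RS.H13
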