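import Pool.Agent.RS.StmtsF

set_option autoImplicit false

/-!
# Squad RS, row UFL: divisibility in a factorial ring by prime powers
-/

namespace Pool.Agent.RS.H13

open Pool.Agent.RS

theorem ufl : UflStmt := by
  intro R _ _ _ b
  induction b using UniqueFactorizationMonoid.induction_on_prime with
  | h₁ =>
    intro c h0 _
    exact absurd rfl h0
  | h₂ x hx =>
    intro c _ _
    exact hx.dvd
  | h₃ a p ha hp ih =>
    intro c _ hq
    have h1 : p ∣ c := by
      have := hq p hp 1 (by rw [pow_one]; exact dvd_mul_right p a)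
      rwa [pow_one] at this
    obtain ⟨c', rfl⟩ := h1
    refine mul_dvd_mul_left p (ih c' ha ?_)
    intro q hqp n hn
    by_cases hass : Associated q p
    · obtain ⟨u, hu⟩ := hass
      have h2 : q ^ (n + 1) ∣ p * a := by
        rw [pow_succ']
        exact mul_dvd_mul ⟨u, hu.symm⟩ hn
      have h3 := hq q hqp (n + 1) h2
      have h4 : q * q ^ n ∣ q * (u * c') := by
        rw [← pow_succ', ← mul_assoc, hu]
        exact h3
      have h5 := (mul_dvd_mul_iff_left hqp.ne_zero).1 h4
      exact (Units.dvd_mul_left).1 h5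
    · have h2 : q ^ n ∣ p * c' := hq q hqp n (Dvd.dvd.mul_left hn p)
      have h3 : ¬ q ∣ p := fun h => hass (hqp.associated_of_dvd hp h)
      exact hqp.pow_dvd_of_dvd_mul_left n h3 h2

end Pool.Agent.RS.H13
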